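import Pool.Agent.R975.BN.Inf

/-!
# MP_627919_pr: the bidirectional 3-neighbour graph on `ℤ²` percolates

Independently for every `x ∈ ℤ²` a uniformly random set `S(x)` of exactly three of the four nearest
neighbours of `x` is chosen (`law`, `Sx`), and `x`, `y` are joined when `y ∈ S(x)` and `x ∈ S(y)`
(`bng`).  `perc` is the event that the component of the origin is infinite and `theta` its
probability `θ^B(3, 2)`.  The theorem answers Q1 positively, with the explicit bound
`θ^B(3, 2) ≥ 2 ^ (-40)`.
-/

set_option autoImplicit false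

namespace Pool.Agent.Results.MP_627919_pr.ThreeNeighbourGraphPercolates

open Pool.Agent.R975.BN3

theorem result : MeasurableSet perc ∧ 0 < theta ∧ (1 / 2 : ℝ) ^ 40 ≤ theta :=
  ⟨Pool.Agent.R975.BN.perc_meas,
    lt_of_lt_of_le (by positivity) Pool.Agent.R975.BN.theta_ge, Pool.Agent.R975.BN.theta_ge⟩

end Pool.Agent.Results.MP_627919_pr.ThreeNeighbourGraphPercolates
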